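import Mathlib

set_option autoImplicit false

namespace Pool.Agent.Results.MP_6d6828_an.Counter

open Finset

/-- `Δ w_i`. -/
noncomputable def Dw (h J ρ : ℝ) (w : ℕ → ℝ) (i : ℕ) : ℝ :=
  (w (i - 1) - (2 + ρ) * w i + w (i + 1)) / (h * J)

/-- The convex set `C` (only the coordinates `1..n` of `w` matter). -/
def InC (n : ℕ) (h A : ℝ) (wmax w : ℕ → ℝ) : Prop :=
  w 1 = 0 ∧ w n = 0 ∧ (∀ i ∈ Icc 2 (n - 1), 0 ≤ w i ∧ w i ≤ wmax i) ∧
    ∀ i ∈ Icc 1 (n - 1), |w (i + 1) - w i| ≤ h * A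

/-- `h / √x` with the convention `h / √0 = +∞`. -/
noncomputable def q (h x : ℝ) : EReal := if x = 0 then ⊤ else ((h / √x : ℝ) : EReal)

/-- Optimal value of (P). -/
noncomputable def valP (n : ℕ) (h ρ A J : ℝ) (wmax : ℕ → ℝ) : EReal :=
  ⨅ (w : ℕ → ℝ) (_ : InC n h A wmax w ∧
      ∀ i ∈ Icc 2 (n - 1), ((|Dw h J ρ w i| : ℝ) : EReal) ≤ q h (w i)),
    ∑ i ∈ Icc 2 (n - 1), q h (w i)

/-- Optimal value of (R). -/
noncomputable def valR (n : ℕ) (h ρ A J : ℝ) (wmax : ℕ → ℝ) : EReal :=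
  ⨅ (w : ℕ → ℝ) (t : ℕ → ℝ) (_ : InC n h A wmax w ∧
      ∀ i ∈ Icc 2 (n - 1), q h (w i) ≤ (t i : EReal) ∧ |Dw h J ρ w i| ≤ t i),
    ((∑ i ∈ Icc 2 (n - 1), t i : ℝ) : EReal)

/-- twice the speed bound -/
def z (i : ℕ) : ℕ :=
  min (min (2 + 2 * ((i - 29) + (29 - i))) 27) (56 - 2 * ((i - 29) + (29 - i)))

noncomputable def W (i : ℕ) : ℝ := (z i : ℝ) / 2

lemma coe_sum (s : Finset ℕ) (f : ℕ → ℝ) :
    ((∑ i ∈ s, f i : ℝ) : EReal) = ∑ i ∈ s, (f i : EReal) := by
  classical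
  induction s using Finset.induction_on with
  | empty => simp
  | insert a s ha ih => rw [sum_insert ha, sum_insert ha, EReal.coe_add, ih]

lemma zfacts : ∀ i ∈ Icc 2 56, 2 ≤ z i ∧ z i ≤ 27 ∧
    (i ≠ 29 → z (i - 1) + z (i + 1) ≤ 2 * z i ∧ 2 * z i ≤ z (i - 1) + z (i + 1) + 1) := by
  decide +kernel

lemma zacc : ∀ i ∈ Icc 1 56, z (i + 1) ≤ z i + 2 ∧ z i ≤ z (i + 1) + 2 := by
  decide +kernel

lemma W_ge (i : ℕ) (hi : i ∈ Icc 2 56) : 1 ≤ W i := by
  have : (2 : ℝ) ≤ z i := by exact_mod_cast (zfacts i hi).1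
  unfold W; linarith

lemma W_le (i : ℕ) (hi : i ∈ Icc 2 56) : W i ≤ 27 / 2 := by
  have : (z i : ℝ) ≤ 27 := by exact_mod_cast (zfacts i hi).2.1
  unfold W; linarith

lemma WC : InC 57 1 1 W W := by
  refine ⟨by simp [W, z], by simp [W, z], fun i hi => ⟨by linarith [W_ge i hi], le_rfl⟩, ?_⟩
  intro i hi
  obtain ⟨h1, h2⟩ := zacc i hi
  have h1' : (z (i + 1) : ℝ) ≤ z i + 2 := by exact_mod_cast h1
  have h2' : (z i : ℝ) ≤ z (i + 1) + 2 := by exact_mod_cast h2
  rw [abs_le]; unfold W; constructor <;> linarith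

lemma Wjerk (i : ℕ) (hi : i ∈ Icc 2 56) (h29 : i ≠ 29) :
    |Dw 1 (39 / 20) (1 / 1000) W i| ≤ 1 / √(W i) := by
  obtain ⟨h1, h2⟩ := (zfacts i hi).2.2 h29
  have h1' : (z (i - 1) : ℝ) + z (i + 1) ≤ 2 * z i := by exact_mod_cast h1
  have h2' : 2 * (z i : ℝ) ≤ z (i - 1) + z (i + 1) + 1 := by exact_mod_cast h2
  have hg := W_ge i hi
  have hl := W_le i hi
  have hs : √(W i) ≤ 37 / 10 := by
    rw [Real.sqrt_le_iff]; constructor <;> nlinarith
  have hs0 : 0 < √(W i) := Real.sqrt_pos.2 (by linarith)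
  have h3 : (10 / 37 : ℝ) ≤ 1 / √(W i) := by
    rw [le_div_iff₀ hs0]; linarith
  refine le_trans ?_ h3
  unfold Dw
  unfold W at hg hl ⊢
  rw [abs_le]
  constructor
  · rw [le_div_iff₀ (by norm_num)]; linarith
  · rw [div_le_iff₀ (by norm_num)]; linarith

noncomputable def T (i : ℕ) : ℝ := 1 / √(W i) + if i = 29 then 49 / 1950 else 0

lemma valR_le : valR 57 1 (1 / 1000) 1 (39 / 20) W ≤
    ((∑ i ∈ Icc 2 56, 1 / √(W i) + 49 / 1950 : ℝ) : EReal) := by
  unfold valR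
  refine iInf_le_of_le W (iInf_le_of_le T (iInf_le_of_le ⟨WC, ?_⟩ ?_))
  · intro i hi
    have hi' : i ∈ Icc 2 56 := hi
    have hg := W_ge i hi'
    constructor
    · unfold q
      rw [if_neg (by linarith)]
      apply EReal.coe_le_coe_iff.2
      unfold T; split_ifs <;> linarith
    · by_cases h29 : i = 29
      · subst h29
        norm_num [Dw, T, W, z]
      · have := Wjerk i hi' h29
        unfold T; rw [if_neg h29]; linarith
  · apply EReal.coe_le_coe_iff.2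
    show ∑ i ∈ Icc 2 56, T i ≤ _
    unfold T
    rw [sum_add_distrib, sum_ite_eq']
    simp

lemma tang (w k d r : ℝ) (hw : 0 < w) (hd : 0 ≤ d) (hk : w ≤ k - d) (hr : k ≤ r ^ 2)
    (hr0 : 0 < r) : 1 / √k + d / (2 * k * r) ≤ 1 / √w := by
  have hk0 : 0 < k := by linarith
  have hu : 0 < √w := Real.sqrt_pos.2 hw
  have hv : 0 < √k := Real.sqrt_pos.2 hk0
  have huv : √w ≤ √k := Real.sqrt_le_sqrt (by linarith)
  have hvr : √k ≤ r := by rw [Real.sqrt_le_iff]; exact ⟨hr0.le, hr⟩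
  have hu2 : √w * √w = w := Real.mul_self_sqrt hw.le
  have hv2 : √k * √k = k := Real.mul_self_sqrt hk0.le
  set u := √w
  set v := √k
  have e : 1 / u - 1 / v = (k - w) / (u * v * (u + v)) := by
    rw [← hu2, ← hv2]; field_simp; ring
  have e2 : d / (2 * k * r) ≤ (k - w) / (u * v * (u + v)) := by
    apply div_le_div₀ (by linarith) (by linarith) (by positivity)
    have a1 : u * v ≤ k := by nlinarith
    have a2 : u + v ≤ 2 * r := by linarith
    calc u * v * (u + v) ≤ k * (2 * r) := by gcongr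
      _ = 2 * k * r := by ring
  linarith

/-- rational upper bounds for square roots, in hundredths -/
def rt (k : ℕ) : ℕ := [100, 100, 142, 174, 200, 224, 245, 265, 283, 300, 317, 332, 347, 361].getD k 1

noncomputable def kap (dm dp : ℝ) (i : ℕ) : ℝ :=
  if 30 ≤ i ∧ i ≤ 41 then dp / (2 * ((i - 28 : ℕ) : ℝ) * ((rt (i - 28) : ℝ) / 100))
  else if 17 ≤ i ∧ i ≤ 28 then dm / (2 * ((30 - i : ℕ) : ℝ) * ((rt (30 - i) : ℝ) / 100)) else 0

lemma kap_sum (dm dp : ℝ) (hm : 0 ≤ dm) (hp : 0 ≤ dp) :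
    (53 / 100) * (dm + dp) ≤ ∑ i ∈ Icc 2 56, kap dm dp i := by
  rw [show Icc 2 56 = (range 55).map (addLeftEmbedding 2) from by decide +kernel, sum_map]
  simp only [sum_range_succ, sum_range_zero, addLeftEmbedding_apply, kap, rt]
  norm_num
  linarith

lemma zr : ∀ i ∈ Icc 30 41, z i = 2 * (i - 28) ∧ 10000 * (i - 28) ≤ rt (i - 28) ^ 2 ∧
    0 < rt (i - 28) := by decide +kernel

lemma zl : ∀ i ∈ Icc 17 28, z i = 2 * (30 - i) ∧ 10000 * (30 - i) ≤ rt (30 - i) ^ 2 ∧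
    0 < rt (30 - i) := by decide +kernel

lemma lower (w : ℕ → ℝ) (hC : InC 57 1 1 W w) (hpos : ∀ i ∈ Icc 2 56, 0 < w i)
    (hj : |Dw 1 (39 / 20) (1 / 1000) w 29| ≤ 1 / √(w 29)) :
    ∑ i ∈ Icc 2 56, 1 / √(W i) + 2597 / 100000 ≤ ∑ i ∈ Icc 2 56, 1 / √(w i) := by
  obtain ⟨-, -, hb, hacc⟩ := hC
  have acc : ∀ i ∈ Icc 1 56, w (i + 1) ≤ w i + 1 ∧ w i ≤ w (i + 1) + 1 := by
    intro i hi
    have := abs_le.1 (hacc i hi)
    constructor <;> linarith [this.1, this.2]
  have b28 : w 28 ≤ 2 := by have := (hb 28 (by decide)).2; norm_num [W, z] at this; exact this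
  have b29 : w 29 ≤ 1 := by have := (hb 29 (by decide)).2; norm_num [W, z] at this; exact this
  have b30 : w 30 ≤ 2 := by have := (hb 30 (by decide)).2; norm_num [W, z] at this; exact this
  have p29 := hpos 29 (by decide)
  have hsum : w 28 + w 30 ≤ 3951 / 1000 := by
    by_cases hx : w 29 ≤ 97 / 100
    · have h1 := (acc 28 (by decide)).2
      have h2 := (acc 29 (by decide)).1
      norm_num at h1 h2
      linarith
    · push Not at hx
      have h1 := (abs_le.1 hj).2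
      unfold Dw at h1
      have hs0 : 0 < √(w 29) := Real.sqrt_pos.2 p29
      have hs2 : √(w 29) * √(w 29) = w 29 := Real.mul_self_sqrt p29.le
      set s := √(w 29)
      have hs1 : s ≤ 1 := by nlinarith
      have hs3 : 9 / 10 ≤ s := by nlinarith
      rw [div_le_div_iff₀ (by norm_num) hs0] at h1
      norm_num at h1
      by_contra hc
      push Not at hc
      have h4 : (3951 / 1000 - 2001 / 1000 * (s * s)) * s < (w 28 - 2001 / 1000 * w 29 + w 30) * s := by
        apply mul_lt_mul_of_pos_right _ hs0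
        rw [hs2]; linarith
      have h5 : 0 ≤ (1 - s) * (2001 / 1000 * s * (1 + s) - 39 / 20) := by
        apply mul_nonneg (by linarith); nlinarith
      nlinarith
  have up : ∀ j : ℕ, j ≤ 11 → w (30 + j) ≤ w 30 + j := by
    intro j
    induction j with
    | zero => intro _; simp
    | succ j ih =>
      intro h
      have h1 := (acc (30 + j) (by rw [mem_Icc]; omega)).1
      have h2 := ih (by omega)
      push_cast
      rw [← add_assoc]; linarith
  have dn : ∀ j : ℕ, j ≤ 11 → w (28 - j) ≤ w 28 + j := by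
    intro j
    induction j with
    | zero => intro _; simp
    | succ j ih =>
      intro h
      have h1 := (acc (28 - (j + 1)) (by rw [mem_Icc]; omega)).2
      have h2 := ih (by omega)
      rw [show 28 - (j + 1) + 1 = 28 - j by omega] at h1
      rw [Nat.cast_succ]
      linarith
  have key : ∀ i ∈ Icc 2 56, 1 / √(W i) + kap (2 - w 28) (2 - w 30) i ≤ 1 / √(w i) := by
    intro i hi
    have hp := hpos i hi
    unfold kap
    split_ifs with h1 h2
    · obtain ⟨e1, e2, e3⟩ := zr i (by rw [mem_Icc]; exact h1)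
      have eW : W i = ((i - 28 : ℕ) : ℝ) := by unfold W; rw [e1]; push_cast; ring
      rw [eW]
      have e2' : 10000 * ((i - 28 : ℕ) : ℝ) ≤ (rt (i - 28) : ℝ) ^ 2 := by exact_mod_cast e2
      have e3' : (0 : ℝ) < rt (i - 28) := by exact_mod_cast e3
      apply tang _ _ _ _ hp (by linarith) _ (by nlinarith) (by positivity)
      have h3 := up (i - 30) (by omega)
      rw [show 30 + (i - 30) = i by omega] at h3
      have h4 : ((i - 28 : ℕ) : ℝ) = ((i - 30 : ℕ) : ℝ) + 2 := by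
        rw [show i - 28 = (i - 30) + 2 by omega]; push_cast; ring
      linarith
    · obtain ⟨e1, e2, e3⟩ := zl i (by rw [mem_Icc]; exact h2)
      have eW : W i = ((30 - i : ℕ) : ℝ) := by unfold W; rw [e1]; push_cast; ring
      rw [eW]
      have e2' : 10000 * ((30 - i : ℕ) : ℝ) ≤ (rt (30 - i) : ℝ) ^ 2 := by exact_mod_cast e2
      have e3' : (0 : ℝ) < rt (30 - i) := by exact_mod_cast e3
      apply tang _ _ _ _ hp (by linarith) _ (by nlinarith) (by positivity)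
      have h3 := dn (28 - i) (by omega)
      rw [show 28 - (28 - i) = i by omega] at h3
      have h4 : ((30 - i : ℕ) : ℝ) = ((28 - i : ℕ) : ℝ) + 2 := by
        rw [show 30 - i = (28 - i) + 2 by omega]; push_cast; ring
      linarith
    · rw [add_zero]
      apply one_div_le_one_div_of_le (Real.sqrt_pos.2 hp)
      exact Real.sqrt_le_sqrt (hb i hi).2
  have h1 := sum_le_sum key
  rw [sum_add_distrib] at h1
  have h2 := kap_sum (2 - w 28) (2 - w 30) (by linarith) (by linarith)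
  linarith

lemma q_ne_bot (h x : ℝ) : q h x ≠ ⊥ := by
  unfold q; split_ifs <;> simp

lemma le_valP : ((∑ i ∈ Icc 2 56, 1 / √(W i) + 2597 / 100000 : ℝ) : EReal) ≤
    valP 57 1 (1 / 1000) 1 (39 / 20) W := by
  unfold valP
  refine le_iInf fun w => le_iInf fun ⟨hC, hJ⟩ => ?_
  show _ ≤ ∑ i ∈ Icc 2 56, q 1 (w i)
  by_cases hz : ∃ i ∈ Icc 2 56, w i = 0
  · obtain ⟨i, hi, h0⟩ := hz
    have hnn : ∀ j ∈ Icc 2 56, (0 : EReal) ≤ q 1 (w j) := by
      intro j _
      unfold q; split_ifs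
      · exact le_top
      · exact EReal.coe_nonneg.2 (by positivity)
    have := single_le_sum hnn hi
    have h1 : q 1 (w i) = ⊤ := by unfold q; rw [if_pos h0]
    rw [h1] at this
    exact le_trans le_top this
  · push Not at hz
    have hpos : ∀ i ∈ Icc 2 56, 0 < w i := fun i hi =>
      lt_of_le_of_ne (hC.2.2.1 i hi).1 (hz i hi).symm
    have e : ∑ i ∈ Icc 2 56, q 1 (w i) = ((∑ i ∈ Icc 2 56, 1 / √(w i) : ℝ) : EReal) := by
      rw [coe_sum]
      refine sum_congr rfl fun i hi => ?_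
      unfold q; rw [if_neg (hz i hi)]
    rw [e]
    apply EReal.coe_le_coe_iff.2
    apply lower w hC hpos
    have := hJ 29 (by decide)
    unfold q at this
    rw [if_neg (hz 29 (by decide))] at this
    exact EReal.coe_le_coe_iff.1 this

lemma valP_lt : valP 57 1 (1 / 1000) 1 (39 / 20) W < ⊤ := by
  let w : ℕ → ℝ := fun i => if 2 ≤ i ∧ i ≤ 56 then 1 else 0
  have hw : ∀ i ∈ Icc 2 56, w i = 1 := fun i hi => if_pos (mem_Icc.1 hi)
  have h01 : ∀ i, 0 ≤ w i ∧ w i ≤ 1 := by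
    intro i; simp only [w]; split_ifs <;> norm_num
  have hq : ∀ i ∈ Icc 2 56, q 1 (w i) = ((1 : ℝ) : EReal) := by
    intro i hi; unfold q; rw [hw i hi]; simp
  unfold valP
  refine lt_of_le_of_lt (iInf_le_of_le w (iInf_le_of_le ⟨⟨by simp [w], by simp [w], ?_, ?_⟩, ?_⟩
    le_rfl)) ?_
  · intro i hi
    exact ⟨(h01 i).1, le_trans (h01 i).2 (W_ge i hi)⟩
  · intro i _
    rw [abs_le]; constructor <;> linarith [h01 i, h01 (i + 1)]
  · intro i hi
    have hi' : i ∈ Icc 2 56 := hi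
    rw [hq i hi']
    apply EReal.coe_le_coe_iff.2
    unfold Dw
    have a1 : 1 ≤ w (i - 1) + w (i + 1) := by
      rw [mem_Icc] at hi'
      by_cases h : i = 2
      · subst h; have := hw 3 (by decide); norm_num; linarith [h01 1]
      · have := hw (i - 1) (by rw [mem_Icc]; omega); linarith [h01 (i + 1)]
    rw [hw i hi', abs_le]
    constructor
    · rw [le_div_iff₀ (by norm_num)]; linarith
    · rw [div_le_iff₀ (by norm_num)]; linarith [h01 (i - 1), h01 (i + 1)]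
  · show ∑ i ∈ Icc 2 56, q 1 (w i) < ⊤
    rw [sum_congr rfl hq, ← coe_sum]
    exact EReal.coe_lt_top _

theorem result : ∃ (n : ℕ) (h ρ A J : ℝ) (wmax : ℕ → ℝ), 3 ≤ n ∧ 0 < h ∧ 0 < ρ ∧ 0 < A ∧ 0 < J ∧
    (∀ i ∈ Icc 2 (n - 1), 0 < wmax i) ∧
    valR n h ρ A J wmax < valP n h ρ A J wmax ∧ valP n h ρ A J wmax < ⊤ := by
  refine ⟨57, 1, 1 / 1000, 1, 39 / 20, W, by norm_num, by norm_num, by norm_num, by norm_num,
    by norm_num, fun i hi => by linarith [W_ge i hi], ?_, valP_lt⟩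
  refine lt_of_le_of_lt valR_le (lt_of_lt_of_le ?_ le_valP)
  apply EReal.coe_lt_coe_iff.2
  norm_num

end Pool.Agent.Results.MP_6d6828_an.Counter
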